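import Pool.Agent.H82.BK.Fin2

/-!
# Module Alg: contraction of the Landau matrix with a quadratic form bounded above

Lagrange identity: `∑_ij (|z|² δ_ij - z_i z_j) M_ij = 1/2 ∑_{k,l} M(w^kl, w^kl)` with `w^kl = z_k e_l - z_l e_k`
(`M(w,w) = ∑_ij w_i w_j M_ij`): indeed `M(w^kl,w^kl) = z_k² M_ll + z_l² M_kk - z_k z_l M_lk - z_l z_k M_kl` (also for `k = l`: `0`).
Each term is `≤ c |w^kl|² ≤ c (z_k² + z_l²)` (for `k ≠ l`; `0` for `k = l`), so the sum is `≤ c d |z|²`. Multiply by
`(nsq z)^(γ/2) ≥ 0`.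
-/

set_option autoImplicit false

open MeasureTheory Set Filter Topology Pool.Agent.H25.Kin

namespace Pool.Agent.H82.LK

variable {d : ℕ}

private lemma alg_w_apply (a b : ℝ) (k l i : Fin d) :
    (a • (Pi.single l 1 : Vec d) - b • (Pi.single k 1 : Vec d)) i =
      a * (if i = l then 1 else 0) - b * (if i = k then 1 else 0) := by
  simp [Pi.single_apply]

private lemma alg_sum_w (a b : ℝ) (k l : Fin d) (f : Fin d → ℝ) :
    ∑ i, (a • (Pi.single l 1 : Vec d) - b • (Pi.single k 1 : Vec d)) i * f i =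
      a * f l - b * f k := by
  simp_rw [alg_w_apply, sub_mul, Finset.sum_sub_distrib]
  have h : ∀ (c : ℝ) (m : Fin d), ∑ i, c * (if i = m then 1 else 0) * f i = c * f m := by
    intro c m
    rw [Finset.sum_eq_single m]
    · simp
    · intro i _ hi; simp [hi]
    · intro hm; exact absurd (Finset.mem_univ m) hm
  rw [h, h]

private lemma alg_quad (M : Fin d → Fin d → ℝ) (a b : ℝ) (k l : Fin d) :
    ∑ i, ∑ j, (a • (Pi.single l 1 : Vec d) - b • (Pi.single k 1 : Vec d)) i *
        (a • (Pi.single l 1 : Vec d) - b • (Pi.single k 1 : Vec d)) j * M i j =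
      a ^ 2 * M l l - a * b * M l k - a * b * M k l + b ^ 2 * M k k := by
  have h1 : ∀ i, ∑ j, (a • (Pi.single l 1 : Vec d) - b • (Pi.single k 1 : Vec d)) i *
        (a • (Pi.single l 1 : Vec d) - b • (Pi.single k 1 : Vec d)) j * M i j =
      (a • (Pi.single l 1 : Vec d) - b • (Pi.single k 1 : Vec d)) i *
        (a * M i l - b * M i k) := by
    intro i
    rw [← alg_sum_w a b k l (fun j => M i j), Finset.mul_sum]
    exact Finset.sum_congr rfl fun j _ => by ring
  simp_rw [h1]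
  rw [alg_sum_w a b k l (fun i => a * M i l - b * M i k)]
  ring

private lemma alg_nsq (z : Vec d) (k l : Fin d) :
    nsq (z k • (Pi.single l 1 : Vec d) - z l • (Pi.single k 1 : Vec d)) ≤ z k ^ 2 + z l ^ 2 := by
  have h1 : nsq (z k • (Pi.single l 1 : Vec d) - z l • (Pi.single k 1 : Vec d)) =
      ∑ i, (z k • (Pi.single l 1 : Vec d) - z l • (Pi.single k 1 : Vec d)) i *
        (z k • (Pi.single l 1 : Vec d) - z l • (Pi.single k 1 : Vec d)) i := by
    unfold nsq
    exact Finset.sum_congr rfl fun i _ => by ring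
  rw [h1, alg_sum_w, alg_w_apply, alg_w_apply]
  by_cases hkl : k = l
  · subst hkl
    simp
    nlinarith [sq_nonneg (z k)]
  · have hlk : ¬ l = k := fun h => hkl h.symm
    simp [hkl, hlk]
    nlinarith

theorem landauA_quad {M : Fin d → Fin d → ℝ} {c : ℝ} (hc : 0 ≤ c)
    (hM : ∀ w : Vec d, ∑ i, ∑ j, w i * w j * M i j ≤ c * nsq w) (γ : ℝ) (z : Vec d) :
    ∑ i, ∑ j, landauA γ z i j * M i j ≤ d * c * (nsq z * nsq z ^ (γ / 2)) := by
  set P := nsq z ^ (γ / 2) with hP
  have hP0 : 0 ≤ P := Real.rpow_nonneg (sq_nonneg' z) _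
  have hterm : ∀ k l : Fin d,
      z k ^ 2 * M l l - z k * z l * M l k - z k * z l * M k l + z l ^ 2 * M k k ≤
        c * (z k ^ 2 + z l ^ 2) := by
    intro k l
    rw [← alg_quad M (z k) (z l) k l]
    exact (hM _).trans (mul_le_mul_of_nonneg_left (alg_nsq z k l) hc)
  have hsum : ∑ k, ∑ l,
      (z k ^ 2 * M l l - z k * z l * M l k - z k * z l * M k l + z l ^ 2 * M k k) ≤
        ∑ k : Fin d, ∑ l : Fin d, c * (z k ^ 2 + z l ^ 2) :=
    Finset.sum_le_sum fun k _ => Finset.sum_le_sum fun l _ => hterm k l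
  have e1 : ∑ k : Fin d, ∑ l : Fin d, c * (z k ^ 2 + z l ^ 2) = 2 * (d * c * nsq z) := by
    unfold nsq
    simp_rw [← Finset.mul_sum, Finset.sum_add_distrib]
    simp only [Finset.sum_const, Finset.card_univ, Fintype.card_fin, nsmul_eq_mul]
    rw [← Finset.mul_sum]
    ring
  have e2 : ∑ k, ∑ l, z k ^ 2 * M l l = nsq z * ∑ l, M l l := by
    unfold nsq
    rw [Finset.sum_mul_sum]
  have e3 : ∑ k, ∑ l, z l ^ 2 * M k k = nsq z * ∑ l, M l l := by
    rw [Finset.sum_comm, e2]
  have e4 : ∑ k, ∑ l, z k * z l * M l k = ∑ k, ∑ l, z k * z l * M k l := by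
    rw [Finset.sum_comm]
    exact Finset.sum_congr rfl fun k _ => Finset.sum_congr rfl fun l _ => by ring
  have e5 : ∑ k, ∑ l,
      (z k ^ 2 * M l l - z k * z l * M l k - z k * z l * M k l + z l ^ 2 * M k k) =
        2 * (nsq z * ∑ l, M l l - ∑ k, ∑ l, z k * z l * M k l) := by
    simp_rw [Finset.sum_add_distrib, Finset.sum_sub_distrib]
    rw [e2, e3, e4]
    ring
  have e6 : ∑ i, ∑ j, landauA γ z i j * M i j =
      P * (nsq z * ∑ l, M l l - ∑ k, ∑ l, z k * z l * M k l) := by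
    have h1 : ∀ i j, landauA γ z i j * M i j =
        P * ((if i = j then nsq z * M i j else 0) - z i * z j * M i j) := by
      intro i j
      unfold landauA
      rw [← hP]
      split_ifs <;> ring
    simp_rw [h1, ← Finset.mul_sum, Finset.sum_sub_distrib, Finset.sum_ite_eq]
    simp only [Finset.mem_univ, if_true]
    rw [← Finset.mul_sum]
  rw [e5, e1] at hsum
  rw [e6]
  have h3 : nsq z * ∑ l, M l l - ∑ k, ∑ l, z k * z l * M k l ≤ d * c * nsq z := by linarith
  calc P * (nsq z * ∑ l, M l l - ∑ k, ∑ l, z k * z l * M k l) ≤ P * (d * c * nsq z) :=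
        mul_le_mul_of_nonneg_left h3 hP0
    _ = d * c * (nsq z * P) := by ring

end Pool.Agent.H82.LK
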