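import Pool.Agent.H82.LK.Reg

/-!
# Module Lim: the limit `ε → 0` of `reg_ibp`

For `ε > 0`, `(|z|²+ε)^(γ/2) ≤ |z|^γ` for `z ≠ 0` (`γ ≤ 0`; `len z = sqrt (nsq z)`), so the left side of `reg_ibp` is
`≥ -(d(d-1)) ∫ φ |z|^γ` (integrable by hypothesis `hint`; `{0}` is a null set if `d ≥ 1`). On the right,
`regA γ ε z i j → landauA γ z i j` for every `z ≠ 0` and `|regA γ ε z i j| ≤ 2 (1+|z|²)` for `z ≠ 0` (as in `landauA_le'`:
`(|z|²+ε)^(γ/2) ≤ (|z|²)^(γ/2)`), dominated convergence along `ε = 1/(n+1)` (`pd i (pd j φ)` is `RD`: `Nice.pd_rd1`, `pd_le`; continuous or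
at least measurable: `measurable_fderiv_apply_const`).
-/

set_option autoImplicit false

open MeasureTheory Set Filter Topology Pool.Agent.H25.Kin

namespace Pool.Agent.H82.LK

variable {d : ℕ}

private lemma lim_rpow_le {γ ε : ℝ} (h2 : γ ≤ 0) (hε : 0 < ε) {z : Vec d} (hz : z ≠ 0) :
    (nsq z + ε) ^ (γ / 2) ≤ nsq z ^ (γ / 2) :=
  Real.rpow_le_rpow_of_nonpos (sq_pos_of_ne hz) (by linarith) (by linarith)

private lemma lim_len_rpow (γ : ℝ) (z : Vec d) : nsq z ^ (γ / 2) = len z ^ γ := by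
  unfold len
  rw [Real.sqrt_eq_rpow, ← Real.rpow_mul (sq_nonneg' z)]
  congr 1
  ring

private lemma lim_regA_le {γ ε : ℝ} (h1 : -2 < γ) (h2 : γ ≤ 0) (hε : 0 < ε) {z : Vec d}
    (hz : z ≠ 0) (i j : Fin d) : |regA γ ε z i j| ≤ 2 * (d + 1) * (1 + ‖z‖) ^ 2 := by
  have h3 : |regA γ ε z i j| ≤ |landauA γ z i j| := by
    unfold regA landauA
    rw [abs_mul, abs_mul]
    refine mul_le_mul_of_nonneg_left ?_ (abs_nonneg _)
    have hn := sq_nonneg' z
    rw [abs_of_nonneg (Real.rpow_nonneg (by linarith) _), abs_of_nonneg (Real.rpow_nonneg hn _)]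
    exact lim_rpow_le h2 hε hz
  exact h3.trans (landauA_PG h1 h2 z i j)

private lemma lim_cont_rpow (γ : ℝ) {ε : ℝ} (hε : 0 < ε) :
    Continuous fun z : Vec d => (nsq z + ε) ^ (γ / 2) :=
  (continuous_sq.add continuous_const).rpow_const fun z =>
    Or.inl (by
      have h3 := sq_nonneg' z
      have h4 : 0 < nsq z + ε := by linarith
      exact h4.ne')

private lemma lim_regA_meas (γ : ℝ) {ε : ℝ} (hε : 0 < ε) (i j : Fin d) :
    Measurable fun z : Vec d => regA γ ε z i j := by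
  unfold regA
  refine Measurable.mul (Measurable.sub ?_ ?_) (lim_cont_rpow γ hε).measurable
  · by_cases h : i = j
    · simpa [h] using (continuous_sq (d := d)).measurable
    · simp [h]
  · fun_prop

theorem lim_ibp (hd : 1 ≤ d) {γ : ℝ} (h1 : -2 < γ) (h2 : γ ≤ 0) {φ : Vec d → ℝ} (hφ : Nice φ)
    (h0 : ∀ z, 0 ≤ φ z) (hint : Integrable fun z => φ z * len z ^ γ) :
    -((d : ℝ) * (d - 1)) * ∫ z, φ z * len z ^ γ ≤
      ∑ i, ∑ j, ∫ z, landauA γ z i j * pd i (pd j φ) z := by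
  have : Nonempty (Fin d) := ⟨⟨0, by omega⟩⟩
  have hae : ∀ᵐ z : Vec d, z ≠ 0 := by
    rw [ae_iff]
    simp
  have hd' : (0 : ℝ) ≤ (d : ℝ) * (d - 1) := by
    have : (1 : ℝ) ≤ d := by exact_mod_cast hd
    exact mul_nonneg (by linarith) (by linarith)
  have hstep : ∀ n : ℕ, -((d : ℝ) * (d - 1)) * ∫ z, φ z * len z ^ γ ≤
      ∑ i, ∑ j, ∫ z, regA γ (1 / ((n : ℝ) + 1)) z i j * pd i (pd j φ) z := by
    intro n
    have hε : (0 : ℝ) < 1 / ((n : ℝ) + 1) := by positivity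
    refine le_trans ?_ (reg_ibp hd h1 h2 hφ h0 hε)
    have h3 : ∫ z, φ z * (nsq z + 1 / ((n : ℝ) + 1)) ^ (γ / 2) ≤ ∫ z, φ z * len z ^ γ := by
      refine integral_mono_of_nonneg (Eventually.of_forall fun z => ?_) hint ?_
      · have hn := sq_nonneg' z
        exact mul_nonneg (h0 z) (Real.rpow_nonneg (by linarith) _)
      · filter_upwards [hae] with z hz
        rw [← lim_len_rpow]
        exact mul_le_mul_of_nonneg_left (lim_rpow_le h2 hε hz) (h0 z)
    rw [neg_mul, neg_mul, neg_le_neg_iff]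
    exact mul_le_mul_of_nonneg_left h3 hd'
  refine ge_of_tendsto' (x := (atTop : Filter ℕ)) ?_ hstep
  refine tendsto_finsetSum _ fun i _ => tendsto_finsetSum _ fun j _ => ?_
  have hm2 : Measurable (pd i (pd j φ)) := measurable_fderiv_apply_const ℝ (pd j φ) _
  have hrd : RD (pd i (pd j φ)) :=
    (hφ.pd_rd1 j).mono 1 fun v => by rw [one_mul]; exact pd_le i (pd j φ) v
  have hpg : PG fun z : Vec d => 2 * ((d : ℝ) + 1) * (1 + ‖z‖) ^ 2 := by
    refine ⟨2, 2 * ((d : ℝ) + 1), fun v => ?_⟩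
    rw [Real.norm_eq_abs, abs_of_nonneg]
    have := w_pos v
    positivity
  have hmb : Measurable fun z : Vec d => pd i (pd j φ) z * (2 * ((d : ℝ) + 1) * (1 + ‖z‖) ^ 2) := by
    fun_prop
  refine tendsto_integral_of_dominated_convergence
    (fun z => ‖pd i (pd j φ) z * (2 * ((d : ℝ) + 1) * (1 + ‖z‖) ^ 2)‖) ?_ ?_ ?_ ?_
  · intro n
    exact ((lim_regA_meas γ (by positivity) i j).mul hm2).aestronglyMeasurable
  · exact ((hrd.mul_PG hpg).integrable hmb.aestronglyMeasurable).norm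
  · intro n
    filter_upwards [hae] with z hz
    have h3 := lim_regA_le h1 h2 (by positivity : (0 : ℝ) < 1 / ((n : ℝ) + 1)) hz i j
    have h4 := w_pos z
    rw [norm_mul, norm_mul, mul_comm]
    refine mul_le_mul_of_nonneg_left ?_ (norm_nonneg _)
    rw [Real.norm_eq_abs, Real.norm_eq_abs,
      abs_of_nonneg (by positivity : (0 : ℝ) ≤ 2 * ((d : ℝ) + 1) * (1 + ‖z‖) ^ 2)]
    exact h3
  · filter_upwards [hae] with z hz
    refine Tendsto.mul_const _ ?_
    unfold regA landauA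
    refine Tendsto.const_mul _ ?_
    have h5 : Tendsto (fun n : ℕ => nsq z + 1 / ((n : ℝ) + 1)) atTop (𝓝 (nsq z + 0)) :=
      tendsto_const_nhds.add tendsto_one_div_add_atTop_nhds_zero_nat
    rw [add_zero] at h5
    exact h5.rpow_const (Or.inl (sq_pos_of_ne hz).ne')

end Pool.Agent.H82.LK
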