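import Pool.Agent.H82.BK.Fin2

/-!
# Module Refl: the reflected function `φ(z) = g(v - z)`

`φ` is `Nice` (chain rule; decay: `1 + ‖z‖ ≤ (1+‖v‖)(1+‖v-z‖)`, see `w_le` in Basic.lean) and
`∂_i ∂_j φ (z) = (∂_i ∂_j g)(v - z)` (each derivative gives a sign `-1`).
-/

set_option autoImplicit false

open MeasureTheory Set Filter Topology Pool.Agent.H25.Kin

namespace Pool.Agent.H82.LK

variable {d : ℕ}

private theorem rd_refl {E : Type*} [NormedAddCommGroup E] {h : Vec d → E} (hh : RD h)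
    (v : Vec d) : RD fun z => h (v - z) := by
  intro N
  obtain ⟨C, hC⟩ := hh N
  refine ⟨(1 + ‖v‖) ^ N * C, fun z => ?_⟩
  have h1 := pow_le_pow_left₀ (w_pos z).le (w_le v z) N
  calc (1 + ‖z‖) ^ N * ‖h (v - z)‖ ≤ ((1 + ‖v‖) * (1 + ‖v - z‖)) ^ N * ‖h (v - z)‖ :=
        mul_le_mul_of_nonneg_right h1 (norm_nonneg _)
    _ = (1 + ‖v‖) ^ N * ((1 + ‖v - z‖) ^ N * ‖h (v - z)‖) := by rw [mul_pow]; ring
    _ ≤ (1 + ‖v‖) ^ N * C := mul_le_mul_of_nonneg_left (hC _) (pow_nonneg (w_pos v).le N)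

private theorem hasFD_refl {E : Type*} [NormedAddCommGroup E] [NormedSpace ℝ E] {h : Vec d → E}
    (hh : Differentiable ℝ h) (v z : Vec d) :
    HasFDerivAt (fun z => h (v - z)) (-(fderiv ℝ h (v - z))) z := by
  have h1 : HasFDerivAt (fun z : Vec d => v - z) (-ContinuousLinearMap.id ℝ (Vec d)) z := by
    simpa using (hasFDerivAt_id (𝕜 := ℝ) z).const_sub v
  have h2 := ((hh (v - z)).hasFDerivAt).comp z h1
  refine h2.congr_fderiv ?_
  ext w
  simp

private theorem fderiv_refl {E : Type*} [NormedAddCommGroup E] [NormedSpace ℝ E] {h : Vec d → E}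
    (hh : Differentiable ℝ h) (v : Vec d) :
    fderiv ℝ (fun z => h (v - z)) = fun z => -(fderiv ℝ h (v - z)) :=
  funext fun z => (hasFD_refl hh v z).fderiv

private theorem fderiv2_refl {g : Vec d → ℝ} (hg : Nice g) (v : Vec d) :
    fderiv ℝ (fderiv ℝ fun z => g (v - z)) = fun z => fderiv ℝ (fderiv ℝ g) (v - z) := by
  rw [fderiv_refl hg.diff v]
  funext z
  have h1 := (hasFD_refl hg.diff1 v z).neg
  rw [neg_neg] at h1
  exact h1.fderiv

theorem nice_refl {g : Vec d → ℝ} (hg : Nice g) (v : Vec d) : Nice fun z => g (v - z) := by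
  refine ⟨hg.smooth.comp (contDiff_const.sub contDiff_id), rd_refl hg.rd v, ?_, ?_⟩
  · rw [fderiv_refl hg.diff v]
    exact (rd_refl hg.rd1 v).neg
  · rw [fderiv2_refl hg v]
    exact rd_refl hg.rd2 v

private theorem pd_refl {h : Vec d → ℝ} (hh : Differentiable ℝ h) (v : Vec d) (j : Fin d) :
    (pd j fun z => h (v - z)) = fun z => -(pd j h (v - z)) := by
  funext z
  unfold pd
  rw [(hasFD_refl hh v z).fderiv]
  rfl

theorem pd_pd_refl {g : Vec d → ℝ} (hg : Nice g) (v z : Vec d) (i j : Fin d) :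
    pd i (pd j fun z => g (v - z)) z = pd i (pd j g) (v - z) := by
  rw [pd_refl hg.diff v j]
  have h1 : HasFDerivAt (fun z => -(pd j g (v - z))) (fderiv ℝ (pd j g) (v - z)) z := by
    have h2 := (hasFD_refl (hg.pd_diff j) v z).neg
    rw [neg_neg] at h2
    exact h2
  show fderiv ℝ (fun z => -(pd j g (v - z))) z (Pi.single i 1) = _
  rw [h1.fderiv]
  rfl

end Pool.Agent.H82.LK
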