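import Pool.Agent.H82.BK.Fin2

/-!
# Module Split: the Landau operator in non-divergence form

`landauQ γ g v = ∑ i, ∑ j, ((a_ij * g)(v) ∂_i ∂_j g(v) - g(v) (a_ij * ∂_i ∂_j g)(v))`.
Proof: `landauQ γ g v = ∑ i, pd i (landauFlux γ g i) v` and `landauFlux_hasFDerivAt` (Flux.lean) gives the derivative; evaluate it
at `Pi.single i 1`: `conv k (fderiv ℝ g) v (Pi.single i 1) = conv k (pd i g) v` (`ContinuousLinearMap.integral_apply`, integrability
from `Kern.integrable` with `hg.cont1`, `hg.rd1`; for `fderiv ℝ (pd j g)` use `hg.pd_cont1 j`, `hg.pd_rd1 j`).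
The terms `∂_j g (a_ij * ∂_i g) - ∂_i g (a_ij * ∂_j g)` cancel in the double sum (`Finset.sum_comm`, `a_ij = a_ji`).
-/

set_option autoImplicit false

open MeasureTheory Set Filter Topology Pool.Agent.H25.Kin

namespace Pool.Agent.H82.LK

variable {d : ℕ}

private lemma conv_apply_single {k : Vec d → ℝ} {A : ℝ} (hk : Kern k A) {f : Vec d → ℝ}
    (hc : Continuous (fderiv ℝ f)) (hr : RD (fderiv ℝ f)) (v : Vec d) (i : Fin d) :
    conv k (fderiv ℝ f) v (Pi.single i 1) = conv k (pd i f) v := by
  unfold conv
  rw [ContinuousLinearMap.integral_apply (hk.integrable hc hr v)]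
  rfl

private lemma landauA_swap (γ : ℝ) (z : Vec d) (i j : Fin d) :
    landauA γ z i j = landauA γ z j i := by
  unfold landauA
  by_cases h : i = j
  · subst h; rfl
  · have h' : ¬ j = i := fun e => h e.symm
    simp only [h, h', if_false]
    ring

theorem landauQ_eq {γ : ℝ} (h1 : -2 < γ) (h2 : γ ≤ 0) {g : Vec d → ℝ} (hg : Nice g) (v : Vec d) :
    landauQ γ g v = ∑ i, ∑ j, (conv (fun z => landauA γ z i j) g v * pd i (pd j g) v -
      g v * conv (fun z => landauA γ z i j) (pd i (pd j g)) v) := by
  have key : ∀ i, pd i (landauFlux γ g i) v =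
      ∑ j, ((conv (fun z => landauA γ z i j) g v * pd i (pd j g) v -
        g v * conv (fun z => landauA γ z i j) (pd i (pd j g)) v) +
        (pd j g v * conv (fun z => landauA γ z i j) (pd i g) v -
          pd i g v * conv (fun z => landauA γ z i j) (pd j g) v)) := by
    intro i
    have h := (landauFlux_hasFDerivAt h1 h2 hg i v).fderiv
    unfold pd at h ⊢
    rw [h]
    rw [ContinuousLinearMap.sum_apply]
    refine Finset.sum_congr rfl fun j _ => ?_
    have e1 := conv_apply_single (kern_landauA h1 h2 i j) hg.cont1 hg.rd1 v i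
    have e2 := conv_apply_single (kern_landauA h1 h2 i j) (hg.pd_cont1 j) (hg.pd_rd1 j) v i
    unfold pd at e1 e2
    simp only [ContinuousLinearMap.sub_apply, ContinuousLinearMap.add_apply,
      ContinuousLinearMap.smul_apply, smul_eq_mul]
    rw [e1, e2]
    ring
  have hzero : ∑ i : Fin d, ∑ j : Fin d, (pd j g v * conv (fun z => landauA γ z i j) (pd i g) v -
      pd i g v * conv (fun z => landauA γ z i j) (pd j g) v) = 0 := by
    simp_rw [Finset.sum_sub_distrib]
    rw [sub_eq_zero, Finset.sum_comm]
    refine Finset.sum_congr rfl fun i _ => Finset.sum_congr rfl fun j _ => ?_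
    have e : (fun z => landauA γ z j i) = (fun z => landauA γ z i j) :=
      funext fun z => landauA_swap γ z j i
    rw [e]
  unfold landauQ
  simp_rw [key, Finset.sum_add_distrib]
  rw [hzero, add_zero]

end Pool.Agent.H82.LK
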