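import Pool.Agent.H82.LK.LOp

/-!
# The continuation criterion with one small moment, for the Landau and the Boltzmann operator
-/

set_option autoImplicit false

open MeasureTheory Set Filter Topology Pool.Agent.H25.Kin Pool.Agent.H82.BK
open scoped ENNReal

namespace Pool.Agent.H82.LK

variable {d : ℕ}

/-- the operator bound at a touching point with a barrier of scale `R ≥ 1` -/
def OpB (Q : (Vec d → ℝ) → Vec d → ℝ) (γ s : ℝ) (p : ℕ) : Prop :=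
  ∃ K : ℝ, 0 ≤ K ∧ ∀ R : ℝ, 1 ≤ R → ∀ g : Vec d → ℝ, Nice g → (∀ u, 0 ≤ g u) → ∀ v : Vec d,
    (∀ u, g u * (1 + nsq u / R ^ 2) ^ p ≤ g v * (1 + nsq v / R ^ 2) ^ p) →
    Q g v ≤ K * g v * ∫ z, g z * ((1 + nsq z / R ^ 2) ^ s + len (v - z) ^ γ)

lemma len_int (hd : 2 ≤ d) {γ : ℝ} (h1 : -2 < γ) (h2 : γ ≤ 0) {g : Vec d → ℝ} (hg : Nice g)
    (v : Vec d) : Integrable fun z : Vec d => g z * len (v - z) ^ γ := by
  obtain ⟨K, hK0, hK⟩ := hg.rd.bound (d + 3)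
  have i1 := ((int_norm_rpow hd h1 h2).comp_sub_left v).const_mul (K * (1 + ‖v‖) ^ (d + 3))
  have hm : Measurable fun z : Vec d => g z * len (v - z) ^ γ :=
    hg.cont.measurable.mul
      ((continuous_len.comp (continuous_const.sub continuous_id)).measurable.pow_const γ)
  refine i1.mono' hm.aestronglyMeasurable (Eventually.of_forall fun z => ?_)
  have hl := Real.rpow_nonneg (len_nonneg (v - z)) γ
  have hnn := Real.rpow_nonneg (norm_nonneg (v - z)) γ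
  have hw := w_pos (v - z)
  have hv := w_pos v
  have hz := w_pos z
  have hlr : len (v - z) ^ γ ≤ ‖v - z‖ ^ γ := by
    by_cases hz : v - z = 0
    · rw [hz, len_zero, norm_zero]
    · exact Real.rpow_le_rpow_of_nonpos (norm_pos_iff.2 hz) (norm_le_len _) h2
  rw [norm_mul, Real.norm_eq_abs (len (v - z) ^ γ), abs_of_nonneg hl]
  have e1 : ((1 + ‖z‖) ^ (d + 3))⁻¹ ≤ (1 + ‖v‖) ^ (d + 3) * ((1 + ‖v - z‖) ^ (d + 3))⁻¹ := by
    have e2 : (1 + ‖v - z‖) ^ (d + 3) ≤ (1 + ‖v‖) ^ (d + 3) * (1 + ‖z‖) ^ (d + 3) := by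
      rw [← mul_pow]
      exact pow_le_pow_left₀ hw.le (w_sub_le v z) _
    rw [inv_eq_one_div, div_le_iff₀ (pow_pos hz _), mul_assoc, mul_comm ((1 + ‖v - z‖) ^ (d + 3))⁻¹,
      ← mul_assoc, ← div_eq_mul_inv, le_div_iff₀ (pow_pos hw _), one_mul]
    exact e2
  calc ‖g z‖ * len (v - z) ^ γ ≤ (K * ((1 + ‖z‖) ^ (d + 3))⁻¹) * ‖v - z‖ ^ γ :=
        mul_le_mul (hK z) hlr hl (mul_nonneg hK0 (inv_nonneg.2 (pow_nonneg hz.le _)))
    _ ≤ (K * ((1 + ‖v‖) ^ (d + 3) * ((1 + ‖v - z‖) ^ (d + 3))⁻¹)) * ‖v - z‖ ^ γ := by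
        gcongr
    _ = K * (1 + ‖v‖) ^ (d + 3) * (‖v - z‖ ^ γ * ((1 + ‖v - z‖) ^ (d + 3))⁻¹) := by ring

/-- the quantitative estimate, `γ ≤ 0` -/
theorem gen_estimate {γ s : ℝ} (hd : 2 ≤ d) (hs : s ∈ Ioo (0 : ℝ) 1) (hγ1 : -2 < γ) (hγ : γ ≤ 0)
    {Q : (Vec d → ℝ) → Vec d → ℝ} {η : ℝ} (hη : 0 < η) (p : ℕ)
    (hQ : OpB Q γ s p) (hpη : ((d : ℝ) + 3) * (1 + η / 2) + 1 ≤ p * η) :
    ∃ K : ℝ, 0 ≤ K ∧ ∀ T : ℝ, ∀ f : ℝ → Vec d → Vec d → ℝ,
      IsClassicalSol T (fun t x => Q (f t x)) f →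
      ∀ m : ℝ → ℝ, IntegrableOn m (Ioo 0 T) →
      (∀ t ∈ Ioo 0 T, ∀ x v,
        ∫ w, f t x w * ((1 + nsq w) ^ (η / 2) + len (v - w) ^ γ) ≤ m t) →
      ∀ A₀ : ℝ, 1 ≤ A₀ → (∀ x v, f 0 x v * (1 + nsq v / A₀ ^ 2) ^ p ≤ A₀) →
      ∀ t ∈ Ico 0 T, ∀ x v,
        f t x v * (1 + nsq v / (A₀ * Real.exp (K * ∫ τ in Ioc 0 t, (m τ + 1))) ^ 2) ^ p ≤
          A₀ * Real.exp (K * ∫ τ in Ioc 0 t, (m τ + 1)) := by
  obtain ⟨K₁, hK₁0, hK₁⟩ := hQ
  obtain ⟨K₂, hK₂0, hK₂⟩ := interp d hs hη hpη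
  set K := K₁ * (2 + K₂) with hK
  have hK0 : 0 ≤ K := by positivity
  refine ⟨K, hK0, fun T f hf m hm hmom A₀ h1 hA₀ => ?_⟩
  have hm0 : ∀ t ∈ Ioo 0 T, 0 ≤ m t := fun t ht => le_trans
    (integral_nonneg fun w => mul_nonneg (hf.nonneg t ⟨ht.1.le, ht.2⟩ 0 w)
      (add_nonneg (Real.rpow_nonneg (by linarith [one_le_nsq w]) _)
        (Real.rpow_nonneg (len_nonneg _) _))) (hmom t ht 0 0)
  have hm1 : IntegrableOn (fun τ => m τ + 1) (Ioo 0 T) :=
    hm.add (by simp [IntegrableOn])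
  refine max_principle_spread hf p hK0 hm1 (fun t ht => by linarith [hm0 t ht]) ?_ h1 hA₀
  intro t ht x v A hA hdom heq
  have hn := IsClassicalSol.nice hf ht x
  have hfn := fun u => hf.nonneg t ⟨ht.1.le, ht.2⟩ x u
  have e1 := hK₁ A hA (f t x) hn hfn v (fun u => by rw [heq]; exact hdom u)
  have i1 := moment_integrable hn (η / 2)
  have i2 := len_int hd hγ1 hγ hn v
  have e2 := hK₂ A hA (f t x) hn hfn hdom i1
  have i3 : Integrable fun z => f t x z * (1 + nsq z / A ^ 2) ^ s := by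
    refine (moment_integrable hn 1).mono' ?_ (Eventually.of_forall fun z => ?_)
    · refine (hn.cont.mul ?_).aestronglyMeasurable
      exact (continuous_const.add (continuous_sq.div_const _)).rpow_const fun z =>
        Or.inr hs.1.le
    · have h2 := sq_nonneg' z
      have hA2 : (1 : ℝ) ≤ A ^ 2 := one_le_pow₀ hA
      have h3 : nsq z / A ^ 2 ≤ nsq z := div_le_self h2 hA2
      have h4 : 0 ≤ nsq z / A ^ 2 := by positivity
      have h5 : (1 + nsq z / A ^ 2) ^ s ≤ (1 + nsq z) ^ (1 : ℝ) :=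
        (Real.rpow_le_rpow_of_exponent_le (by linarith) hs.2.le).trans
          (Real.rpow_le_rpow (by linarith) (by linarith) zero_le_one)
      rw [Real.norm_eq_abs, abs_of_nonneg (mul_nonneg (hfn z) (Real.rpow_nonneg (by linarith) _))]
      exact mul_le_mul_of_nonneg_left h5 (hfn z)
  have e3 : ∫ z, f t x z * ((1 + nsq z / A ^ 2) ^ s + len (v - z) ^ γ) =
      (∫ z, f t x z * (1 + nsq z / A ^ 2) ^ s) + ∫ z, f t x z * len (v - z) ^ γ := by
    rw [← integral_add i3 i2]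
    exact integral_congr_ae (Eventually.of_forall fun z => by simp only; ring)
  have e4 : ∫ z, f t x z * ((1 + nsq z) ^ (η / 2) + len (v - z) ^ γ) =
      (∫ z, f t x z * (1 + nsq z) ^ (η / 2)) + ∫ z, f t x z * len (v - z) ^ γ := by
    rw [← integral_add i1 i2]
    exact integral_congr_ae (Eventually.of_forall fun z => by simp only; ring)
  have e5 := hmom t ht x v
  rw [e4] at e5
  have n1 : 0 ≤ ∫ z, f t x z * (1 + nsq z) ^ (η / 2) := integral_nonneg fun z =>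
    mul_nonneg (hfn z) (Real.rpow_nonneg (by linarith [one_le_nsq z]) _)
  have n2 : 0 ≤ ∫ z, f t x z * len (v - z) ^ γ := integral_nonneg fun z =>
    mul_nonneg (hfn z) (Real.rpow_nonneg (len_nonneg _) _)
  have e6 : ∫ z, f t x z * ((1 + nsq z / A ^ 2) ^ s + len (v - z) ^ γ) ≤
      (2 + K₂) * (m t + 1) := by
    rw [e3]
    have := hm0 t ht
    nlinarith [mul_nonneg hK₂0 this]
  calc Q (f t x) v ≤ K₁ * f t x v *
        ∫ z, f t x z * ((1 + nsq z / A ^ 2) ^ s + len (v - z) ^ γ) := e1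
    _ ≤ K₁ * f t x v * ((2 + K₂) * (m t + 1)) :=
        mul_le_mul_of_nonneg_left e6 (mul_nonneg hK₁0 (hfn v))
    _ = K * f t x v * (m t + 1) := by rw [hK]; ring

/-- a small moment integrable in time gives rapid decay up to `T` -/
theorem gen_rapid {γ s : ℝ} (hd : 2 ≤ d) (hs : s ∈ Ioo (0 : ℝ) 1) (hγ1 : -2 < γ) (hγ : γ ≤ 0)
    {Q : (Vec d → ℝ) → Vec d → ℝ} (hQ : ∀ p : ℕ, (d : ℝ) + γ + 4 ≤ 2 * p → OpB Q γ s p)
    {η : ℝ} (hη : 0 < η) {T : ℝ} {f : ℝ → Vec d → Vec d → ℝ}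
    (hf : IsClassicalSol T (fun t x => Q (f t x)) f) (h : SoftInL1 γ η T f) :
    RapidUpTo T f := by
  rcases le_or_gt T 0 with hT | hT
  · intro N
    exact ⟨0, fun t ht => absurd (ht.1.trans_lt ht.2) (not_lt.2 hT)⟩
  obtain ⟨m, hm, hmom⟩ := h
  refine rapid_of_weighted hf.nonneg fun N => ?_
  obtain ⟨p, hp⟩ := exists_nat_ge (max (max (((d : ℝ) + γ + 4) / 2) N)
    ((((d : ℝ) + 3) * (1 + η / 2) + 1) / η))
  have hp1 : (d : ℝ) + γ + 4 ≤ 2 * p := by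
    have := ((le_max_left _ _).trans (le_max_left _ _)).trans hp
    linarith
  have hp2 : N ≤ 2 * p := by
    have h1 : (N : ℝ) ≤ p := ((le_max_right _ _).trans (le_max_left _ _)).trans hp
    have h2 : N ≤ p := by exact_mod_cast h1
    omega
  have hp3 : ((d : ℝ) + 3) * (1 + η / 2) + 1 ≤ p * η := by
    have := (le_max_right _ _).trans hp
    rwa [div_le_iff₀ hη] at this
  obtain ⟨K, hK0, hK⟩ := gen_estimate hd hs hγ1 hγ hη p (hQ p hp1) hp3
  obtain ⟨A₁, hA₁⟩ := init_bound hf hT p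
  set A₀ := max A₁ 1 with hA₀
  have h1A : 1 ≤ A₀ := le_max_right _ _
  have hinit : ∀ x v, f 0 x v * (1 + nsq v / A₀ ^ 2) ^ p ≤ A₀ := by
    intro x v
    have h0 := hf.nonneg 0 ⟨le_rfl, hT⟩ x v
    have h2 := sq_nonneg' v
    have hA2 : (1 : ℝ) ≤ A₀ ^ 2 := one_le_pow₀ h1A
    have h3 : nsq v / A₀ ^ 2 ≤ nsq v := div_le_self h2 hA2
    have h4 : 0 ≤ nsq v / A₀ ^ 2 := by positivity
    calc f 0 x v * (1 + nsq v / A₀ ^ 2) ^ p ≤ f 0 x v * (1 + nsq v) ^ p :=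
          mul_le_mul_of_nonneg_left (pow_le_pow_left₀ (by linarith) (by linarith) p) h0
      _ ≤ A₁ := hA₁ x v
      _ ≤ A₀ := le_max_left _ _
  have hm0 : ∀ t ∈ Ioo 0 T, 0 ≤ m t := fun t ht => le_trans
    (integral_nonneg fun w => mul_nonneg (hf.nonneg t ⟨ht.1.le, ht.2⟩ 0 w)
      (add_nonneg (Real.rpow_nonneg (by linarith [one_le_nsq w]) _)
        (Real.rpow_nonneg (len_nonneg _) _))) (hmom t ht 0 0)
  have hm1 : IntegrableOn (fun τ => m τ + 1) (Ioo 0 T) := hm.add (by simp [IntegrableOn])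
  set L := ∫ τ in Ioo 0 T, (m τ + 1) with hL
  set AT := A₀ * Real.exp (K * L) with hAT
  refine ⟨p, hp2, AT ^ (2 * p) * AT, fun t ht x v => ?_⟩
  have h5 := hK T f hf m hm hmom A₀ h1A hinit t ht x v
  set At := A₀ * Real.exp (K * ∫ τ in Ioc 0 t, (m τ + 1)) with hAt
  have hI0 : 0 ≤ ∫ τ in Ioc 0 t, (m τ + 1) := setIntegral_nonneg measurableSet_Ioc fun τ hτ => by
    linarith [hm0 τ ⟨hτ.1, hτ.2.trans_lt ht.2⟩]
  have hIL : ∫ τ in Ioc 0 t, (m τ + 1) ≤ L := by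
    refine setIntegral_mono_set hm1 ?_ (Eventually.of_forall ?_)
    · filter_upwards [ae_restrict_mem measurableSet_Ioo] with τ hτ
      have := hm0 τ hτ
      simp only [Pi.zero_apply]; linarith
    · exact fun τ hτ => ⟨hτ.1, hτ.2.trans_lt ht.2⟩
  have hAt1 : 1 ≤ At := by
    have : 1 ≤ Real.exp (K * ∫ τ in Ioc 0 t, (m τ + 1)) := Real.one_le_exp (by positivity)
    nlinarith
  have hAtT : At ≤ AT := mul_le_mul_of_nonneg_left
    (Real.exp_le_exp.2 (mul_le_mul_of_nonneg_left hIL hK0)) (by linarith)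
  have h0 := hf.nonneg t ht x v
  have h2 := sq_nonneg' v
  have h6 : (1 + nsq v) ^ p ≤ At ^ (2 * p) * (1 + nsq v / At ^ 2) ^ p := by
    rw [pow_mul, ← mul_pow]
    refine pow_le_pow_left₀ (by linarith) ?_ p
    have hA2 : (1 : ℝ) ≤ At ^ 2 := one_le_pow₀ hAt1
    have : At ^ 2 * (1 + nsq v / At ^ 2) = At ^ 2 + nsq v := by field_simp
    rw [this]; linarith
  calc f t x v * (1 + nsq v) ^ p ≤ f t x v * (At ^ (2 * p) * (1 + nsq v / At ^ 2) ^ p) :=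
        mul_le_mul_of_nonneg_left h6 h0
    _ = At ^ (2 * p) * (f t x v * (1 + nsq v / At ^ 2) ^ p) := by ring
    _ ≤ At ^ (2 * p) * At := mul_le_mul_of_nonneg_left h5 (by positivity)
    _ ≤ AT ^ (2 * p) * AT := mul_le_mul (pow_le_pow_left₀ (by linarith) hAtT _) hAtT
        (by linarith) (pow_nonneg (by linarith) _)

/-- conversely, rapid decay up to `T` controls the small moment and the convolution -/
theorem rapid_soft {γ : ℝ} (hd : 2 ≤ d) (hγ1 : -2 < γ) (hγ : γ ≤ 0) (η : ℝ) {T : ℝ}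
    {Q f : ℝ → Vec d → Vec d → ℝ} (hf : IsClassicalSol T Q f) (h : RapidUpTo T f) :
    SoftInL1 γ η T f := by
  obtain ⟨n, hn⟩ := exists_nat_ge (η / 2)
  obtain ⟨C₀, hC₀⟩ := h 0
  obtain ⟨C₁, hC₁⟩ := h (2 * n + (d + 1))
  have hw : Integrable (fun v : Vec d => ((1 + ‖v‖) ^ (d + 1))⁻¹) := integrable_wt
  set W := ∫ v : Vec d, ((1 + ‖v‖) ^ (d + 1))⁻¹ with hW
  set G := ∫ z, kg (d := d) γ z with hG
  have hkg := kg_integrable (d := d) hd hγ1 (by linarith : γ ≤ 2)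
  have hd0 : (0 : ℝ) ≤ d := Nat.cast_nonneg d
  refine ⟨fun _ => (d + 1) ^ n * |C₁| * W + (|C₁| * W + 2 ^ (d + 5) * |C₀| * G),
    by simp [IntegrableOn], fun t ht x v => ?_⟩
  have ht' : t ∈ Ico 0 T := ⟨ht.1.le, ht.2⟩
  have hn' := IsClassicalSol.nice hf ht x
  have hfn := fun u => hf.nonneg t ht' x u
  have i1 := moment_integrable hn' (η / 2)
  have i2 := len_int hd hγ1 hγ hn' v
  have e4 : ∫ z, f t x z * ((1 + nsq z) ^ (η / 2) + len (v - z) ^ γ) =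
      (∫ z, f t x z * (1 + nsq z) ^ (η / 2)) + ∫ z, f t x z * len (v - z) ^ γ := by
    rw [← integral_add i1 i2]
    exact integral_congr_ae (Eventually.of_forall fun z => by simp only; ring)
  have hdec : ∀ z, f t x z ≤ |C₁| * ((1 + ‖z‖) ^ (2 * n + (d + 1)))⁻¹ := by
    intro z
    rw [← div_eq_mul_inv, le_div_iff₀ (pow_pos (w_pos z) _), mul_comm]
    exact (hC₁ t ht' x z).trans (le_abs_self _)
  have p1 : ∫ z, f t x z * (1 + nsq z) ^ (η / 2) ≤ (d + 1) ^ n * |C₁| * W := by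
    rw [hW, ← integral_const_mul]
    refine integral_mono_of_nonneg (Eventually.of_forall fun z => mul_nonneg (hfn z)
      (Real.rpow_nonneg (by linarith [one_le_nsq z]) _)) (hw.const_mul _)
      (Eventually.of_forall fun z => ?_)
    have h1 := one_le_nsq z
    have h2 : (1 + nsq z) ^ (η / 2) ≤ (d + 1) ^ n * (1 + ‖z‖) ^ (2 * n) := by
      calc (1 + nsq z) ^ (η / 2) ≤ (1 + nsq z) ^ (n : ℝ) := Real.rpow_le_rpow_of_exponent_le h1 hn
        _ = (1 + nsq z) ^ n := Real.rpow_natCast _ _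
        _ ≤ ((d + 1) * (1 + ‖z‖) ^ 2) ^ n := pow_le_pow_left₀ (by linarith) (one_add_nsq_le z) n
        _ = (d + 1) ^ n * (1 + ‖z‖) ^ (2 * n) := by rw [mul_pow, pow_mul]
    have h3 := w_pos z
    calc f t x z * (1 + nsq z) ^ (η / 2)
        ≤ (|C₁| * ((1 + ‖z‖) ^ (2 * n + (d + 1)))⁻¹) * ((d + 1) ^ n * (1 + ‖z‖) ^ (2 * n)) :=
          mul_le_mul (hdec z) h2 (Real.rpow_nonneg (by linarith) _) (by positivity)
      _ = (d + 1) ^ n * |C₁| * ((1 + ‖z‖) ^ (d + 1))⁻¹ := by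
          rw [pow_add]; field_simp
  have p2 : ∫ z, f t x z * len (v - z) ^ γ ≤ |C₁| * W + 2 ^ (d + 5) * |C₀| * G := by
    have i3 : Integrable fun z : Vec d => |C₁| * ((1 + ‖z‖) ^ (d + 1))⁻¹ +
        2 ^ (d + 5) * |C₀| * kg γ (v - z) :=
      (hw.const_mul _).add ((hkg.comp_sub_left v).const_mul _)
    have e5 : ∫ z, (|C₁| * ((1 + ‖z‖) ^ (d + 1))⁻¹ + 2 ^ (d + 5) * |C₀| * kg γ (v - z)) =
        |C₁| * W + 2 ^ (d + 5) * |C₀| * G := by
      rw [integral_add (hw.const_mul _) ((hkg.comp_sub_left v).const_mul _), integral_const_mul,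
        integral_const_mul, integral_sub_left_eq_self (fun z => kg (d := d) γ z)]
    rw [← e5]
    refine integral_mono_of_nonneg (Eventually.of_forall fun z => mul_nonneg (hfn z)
      (Real.rpow_nonneg (len_nonneg _) _)) i3 (Eventually.of_forall fun z => ?_)
    have hk := kg_nonneg γ (v - z)
    have h3 := w_pos z
    have hc0 : f t x z ≤ |C₀| := by
      have := hC₀ t ht' x z
      rw [pow_zero, one_mul] at this
      exact this.trans (le_abs_self _)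
    have hc1 : f t x z ≤ |C₁| * ((1 + ‖z‖) ^ (d + 1))⁻¹ := by
      refine (hdec z).trans (mul_le_mul_of_nonneg_left (inv_anti₀ (pow_pos h3 _) ?_) (abs_nonneg _))
      exact pow_le_pow_right₀ (one_le_w z) (by omega)
    rcases le_total 1 ‖v - z‖ with h4 | h4
    · have h5 : len (v - z) ^ γ ≤ 1 :=
        Real.rpow_le_one_of_one_le_of_nonpos (h4.trans (norm_le_len _)) hγ
      calc f t x z * len (v - z) ^ γ ≤ f t x z * 1 := mul_le_mul_of_nonneg_left h5 (hfn z)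
        _ ≤ |C₁| * ((1 + ‖z‖) ^ (d + 1))⁻¹ + 2 ^ (d + 5) * |C₀| * kg γ (v - z) := by
            have : 0 ≤ 2 ^ (d + 5) * |C₀| * kg γ (v - z) := by positivity
            linarith
    · have h6 : len (v - z) ^ γ ≤ 2 ^ (d + 5) * kg γ (v - z) := by
        unfold kg
        have h7 := Real.rpow_nonneg (len_nonneg (v - z)) γ
        have h8 := sq_nonneg' (v - z)
        have h9 := w_pos (v - z)
        have h10 : (1 + ‖v - z‖) ^ (d + 5) ≤ 2 ^ (d + 5) := pow_le_pow_left₀ h9.le (by linarith) _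
        have h11 : 1 ≤ 2 ^ (d + 5) * ((1 + ‖v - z‖) ^ (d + 5))⁻¹ := by
          rw [← div_eq_mul_inv, one_le_div (pow_pos h9 _)]
          exact h10
        calc len (v - z) ^ γ ≤ len (v - z) ^ γ * ((1 + nsq (v - z)) *
              (2 ^ (d + 5) * ((1 + ‖v - z‖) ^ (d + 5))⁻¹)) := by
              refine le_mul_of_one_le_right h7 ?_
              exact one_le_mul_of_one_le_of_one_le (by linarith) h11
          _ = _ := by ring
      have h12 : 0 ≤ |C₁| * ((1 + ‖z‖) ^ (d + 1))⁻¹ := by positivity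
      calc f t x z * len (v - z) ^ γ ≤ |C₀| * (2 ^ (d + 5) * kg γ (v - z)) :=
            mul_le_mul hc0 h6 (Real.rpow_nonneg (len_nonneg _) _) (abs_nonneg _)
        _ ≤ |C₁| * ((1 + ‖z‖) ^ (d + 1))⁻¹ + 2 ^ (d + 5) * |C₀| * kg γ (v - z) := by nlinarith
  rw [e4]
  exact add_le_add p1 p2

/-- `S` is the solution class of one kinetic equation with moderately soft potential `γ` and fixed
parameters: the inhomogeneous non-cutoff Boltzmann equation with kernel `|v-w|^γ b(cos θ)`,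
`0 < s < 1`, `-2s ≤ γ ≤ 0`, or the inhomogeneous Landau equation with exponent `-2 < γ < 0`. -/
def IsSoftEq (γ : ℝ) (S : ℝ → (ℝ → Vec d → Vec d → ℝ) → Prop) : Prop :=
  (∃ (s : ℝ) (b : ℝ → ℝ), s ∈ Ioo (0 : ℝ) 1 ∧ 0 ≤ γ + 2 * s ∧ γ ≤ 0 ∧ IsKernel d s b ∧
    S = IsBoltzmannSol γ b) ∨ (-2 < γ ∧ γ < 0 ∧ S = IsLandauSol γ)

lemma IsSoftEq.out (hd : 2 ≤ d) {γ : ℝ} {S : ℝ → (ℝ → Vec d → Vec d → ℝ) → Prop}
    (hS : IsSoftEq γ S) : -2 < γ ∧ γ ≤ 0 ∧ ∃ (s : ℝ) (Q : (Vec d → ℝ) → Vec d → ℝ),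
      s ∈ Ioo (0 : ℝ) 1 ∧ (∀ p : ℕ, (d : ℝ) + γ + 4 ≤ 2 * p → OpB Q γ s p) ∧
      ∀ T f, S T f ↔ IsClassicalSol T (fun t x => Q (f t x)) f := by
  rcases hS with ⟨s, b, hs, h1, h2, hb, rfl⟩ | ⟨h1, h2, rfl⟩
  · refine ⟨by linarith [hs.2], h2, s, boltzQ γ b, hs, fun p hp => ?_, fun T f => Iff.rfl⟩
    obtain ⟨C, Ca, H⟩ := exists_hyp hd hs.1 hs.2 h1 (by linarith [hs.2] : γ + 2 * s ≤ 2) hb
    exact op_bound_scaled H h2 hp
  · refine ⟨h1, h2.le, (γ + 2) / 2, landauQ γ, ⟨by linarith, by linarith⟩, fun p _ => ?_,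
      fun T f => Iff.rfl⟩
    obtain ⟨K, hK0, hK⟩ := landau_op hd h1 h2.le p
    exact ⟨K, hK0, fun R hR g hg hg0 v hdom => hK R hR g hg hg0 v hdom (len_int hd h1 h2.le hg v)⟩

end Pool.Agent.H82.LK
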