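import Pool.Agent.H82.BK.Fin2

/-!
# Module Hess: the Hessian at a touching point

Let `c = g v (1+|v|²/R²)^p` and `w` a direction. `F(t) = c (1+|v+tw|²/R²)^(-p) - g(v+tw) ≥ 0 = F(0)`, `F` is `C²`, so `F''(0) ≥ 0`
(second derivative test, e.g. if `F''(0) < 0` then `F'(0) = 0` and `F < 0` near `0`; or the symmetric difference quotient
`(F(t)+F(-t)-2F(0))/t² → F''(0)`). The second derivative of `t ↦ g(v+tw)` at `0` is `∑_ij w_i w_j ∂_i ∂_j g(v)`
(linearity of `fderiv`, `w = ∑ w_i e_i`, `Pi.basisFun` / `LinearMap.pi_apply_eq_sum_univ`).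
For the first term put `q(t) = 1+|v+tw|²/R²` (a quadratic polynomial, `q' (0) = 2 v·w/R²`, `q'' = 2|w|²/R²`):
`(c q^(-p))''(0) = c (p(p+1) q^(-p-2) q'^2 - p q^(-p-1) q'') ≤ c q^(-p) p(p+1) 4 (v·w)² / (R⁴ q²) ≤ g(v) 4 p (p+1) |w|² / (R²+|v|²)`
(`(v·w)² ≤ |v|²|w|²`, `R² q = R²+|v|²`).
-/

set_option autoImplicit false

open MeasureTheory Set Filter Topology Pool.Agent.H25.Kin

namespace Pool.Agent.H82.LK

variable {d : ℕ}

private lemma dir_eq (g : Vec d → ℝ) (u w : Vec d) : fderiv ℝ g u w = ∑ i, w i * pd i g u := by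
  have h : w = ∑ i, w i • (Pi.single i (1 : ℝ) : Vec d) := by
    funext j
    simp [Finset.sum_apply, Pi.single_apply]
  conv_lhs => rw [h]
  rw [map_sum]
  exact Finset.sum_congr rfl fun i _ => by rw [map_smul, smul_eq_mul, pd]

private lemma line_deriv {f : Vec d → ℝ} {v w : Vec d} {t : ℝ}
    (hf : DifferentiableAt ℝ f (v + t • w)) :
    HasDerivAt (fun t : ℝ => f (v + t • w)) (∑ i, w i * pd i f (v + t • w)) t := by
  have hl : HasDerivAt (fun t : ℝ => v + t • w) w t := by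
    simpa using ((hasDerivAt_id t).smul_const w).const_add v
  have h := hf.hasFDerivAt.comp_hasDerivAt t hl
  rw [dir_eq] at h
  exact h

private lemma second_test {H H' : ℝ → ℝ} {H2 : ℝ} (h1 : ∀ t, HasDerivAt H (H' t) t)
    (h2 : HasDerivAt H' H2 0) (hmax : ∀ t, H t ≤ H 0) : H' 0 = 0 ∧ H2 ≤ 0 := by
  have hlm : IsLocalMax H 0 := Eventually.of_forall hmax
  have h0 : H' 0 = 0 := hlm.hasDerivAt_eq_zero (h1 0)
  refine ⟨h0, ?_⟩
  by_contra hneg
  rw [not_le] at hneg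
  have hd : deriv H = H' := funext fun t => (h1 t).deriv
  have hmin : IsLocalMin H 0 := by
    apply isLocalMin_of_deriv_deriv_pos
    · rw [hd, h2.deriv]; exact hneg
    · rw [hd]; exact h0
    · exact (h1 0).continuousAt
  have hconst : H =ᶠ[𝓝 0] fun _ => H 0 := by
    filter_upwards [hmin] with t ht
    exact le_antisymm (hmax t) ht
  have hd0 : H' =ᶠ[𝓝 0] fun _ => (0 : ℝ) := by
    have h3 := hconst.deriv
    rw [hd] at h3
    refine h3.trans (Eventually.of_forall fun t => ?_)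
    simp
  have h4 : HasDerivAt H' 0 0 := (hasDerivAt_const (0 : ℝ) (0 : ℝ)).congr_of_eventuallyEq hd0
  have := h2.unique h4
  linarith

private lemma cauchy (v w : Vec d) : (∑ i, v i * w i) ^ 2 ≤ nsq v * nsq w := by
  unfold nsq
  exact Finset.sum_mul_sq_le_sq_mul_sq _ _ _

theorem hess_touch {g : Vec d → ℝ} (hg : ContDiff ℝ 2 g) (h0 : ∀ u, 0 ≤ g u) {R : ℝ} (hR : 0 < R)
    {p : ℕ} {v : Vec d}
    (hdom : ∀ u, g u * (1 + nsq u / R ^ 2) ^ p ≤ g v * (1 + nsq v / R ^ 2) ^ p) (w : Vec d) :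
    ∑ i, ∑ j, w i * w j * pd i (pd j g) v ≤ 4 * p * (p + 1) * g v / (R ^ 2 + nsq v) * nsq w := by
  have hR2 : 0 < R ^ 2 := by positivity
  -- the first and second derivatives of `G`
  have hgd : Differentiable ℝ g := hg.differentiable (by norm_num)
  have hpd : ∀ j, Differentiable ℝ (pd j g) := by
    intro j
    have h1 : ContDiff ℝ 1 (fderiv ℝ g) := hg.fderiv_right (by norm_num)
    have h2 : ContDiff ℝ 1 (pd j g) := h1.clm_apply contDiff_const
    exact h2.differentiable (by norm_num)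
  have hG : ∀ t : ℝ, HasDerivAt (fun t : ℝ => g (v + t • w)) (∑ j, w j * pd j g (v + t • w)) t :=
    fun t => line_deriv (hgd _)
  have hG2 : HasDerivAt (fun t : ℝ => ∑ j, w j * pd j g (v + t • w))
      (∑ i, ∑ j, w i * w j * pd i (pd j g) v) 0 := by
    have h := HasDerivAt.fun_sum (u := (Finset.univ : Finset (Fin d)))
      (A := fun j (t : ℝ) => w j * pd j g (v + t • w))
      (A' := fun j => w j * ∑ i, w i * pd i (pd j g) (v + (0 : ℝ) • w)) (x := 0)
      fun j _ => (line_deriv (v := v) (w := w) (t := 0) (hpd j _)).const_mul (w j)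
    refine h.congr_deriv ?_
    rw [Finset.sum_comm]
    refine Finset.sum_congr rfl fun j _ => ?_
    rw [Finset.mul_sum]
    refine Finset.sum_congr rfl fun i _ => ?_
    rw [zero_smul, add_zero]
    ring
  -- the quadratic polynomial
  have hq : ∀ t : ℝ, HasDerivAt (fun t : ℝ => 1 + nsq (v + t • w) / R ^ 2)
      (2 * (∑ i, (v i + t * w i) * w i) / R ^ 2) t := by
    intro t
    have h1 : HasDerivAt (fun t : ℝ => nsq (v + t • w)) (∑ i, 2 * (v i + t * w i) * w i) t := by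
      unfold nsq
      refine HasDerivAt.fun_sum fun i _ => ?_
      have h2 : HasDerivAt (fun t : ℝ => v i + t * w i) (w i) t := by
        simpa using ((hasDerivAt_id t).mul_const (w i)).const_add (v i)
      have h3 := h2.fun_pow 2
      have h4 : HasDerivAt (fun t : ℝ => (v + t • w) i ^ 2)
          (((2 : ℕ) : ℝ) * (v i + t * w i) ^ (2 - 1) * w i) t := h3
      refine h4.congr_deriv ?_
      simp
    refine ((h1.div_const (R ^ 2)).const_add 1).congr_deriv ?_
    rw [Finset.mul_sum]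
    congr 1
    exact Finset.sum_congr rfl fun i _ => by ring
  have hq2 : HasDerivAt (fun t : ℝ => 2 * (∑ i, (v i + t * w i) * w i) / R ^ 2)
      (2 * nsq w / R ^ 2) 0 := by
    have h1 : HasDerivAt (fun t : ℝ => ∑ i, (v i + t * w i) * w i) (nsq w) 0 := by
      unfold nsq
      refine HasDerivAt.fun_sum fun i _ => ?_
      have h2 : HasDerivAt (fun t : ℝ => v i + t * w i) (w i) 0 := by
        simpa using ((hasDerivAt_id (0 : ℝ)).mul_const (w i)).const_add (v i)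
      refine (h2.mul_const (w i)).congr_deriv ?_
      ring
    exact (h1.const_mul 2).div_const _
  set Q : ℝ := 1 + nsq v / R ^ 2 with hQ
  set s : ℝ := ∑ i, v i * w i with hs
  set Q1 : ℝ := 2 * s / R ^ 2 with hQ1
  set Q2 : ℝ := 2 * nsq w / R ^ 2 with hQ2
  have hnv : 0 ≤ nsq v := sq_nonneg' v
  have hnw : 0 ≤ nsq w := sq_nonneg' w
  have hQpos : 0 < Q := by rw [hQ]; positivity
  set K : ℝ := Q ^ p with hK
  have hKpos : 0 < K := by rw [hK]; positivity
  -- the powers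
  have hk : ∀ t : ℝ, HasDerivAt (fun t : ℝ => (1 + nsq (v + t • w) / R ^ 2) ^ p)
      (p * (1 + nsq (v + t • w) / R ^ 2) ^ (p - 1) *
        (2 * (∑ i, (v i + t * w i) * w i) / R ^ 2)) t := fun t => (hq t).fun_pow p
  have hk2 : HasDerivAt (fun t : ℝ => p * (1 + nsq (v + t • w) / R ^ 2) ^ (p - 1) *
        (2 * (∑ i, (v i + t * w i) * w i) / R ^ 2))
      (p * (((p - 1 : ℕ) : ℝ) * Q ^ (p - 1 - 1) * Q1) * Q1 + p * Q ^ (p - 1) * Q2) 0 := by
    have h1 := (((hq 0).fun_pow (p - 1)).const_mul (p : ℝ)).fun_mul hq2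
    refine h1.congr_deriv ?_
    simp only [zero_smul, add_zero, zero_mul, hQ, hQ1, hs]
  set K1 : ℝ := p * Q ^ (p - 1) * Q1 with hK1
  set K2 : ℝ := p * (((p - 1 : ℕ) : ℝ) * Q ^ (p - 1 - 1) * Q1) * Q1 + p * Q ^ (p - 1) * Q2
    with hK2
  have r1 : Q * K1 = p * K * Q1 := by
    rw [hK1, hK]
    rcases p with _ | p
    · simp
    · simp only [Nat.add_sub_cancel, pow_succ]
      ring
  have r2 : Q ^ 2 * K2 = p * (p - 1) * K * Q1 ^ 2 + p * K * Q * Q2 := by
    rw [hK2, hK]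
    rcases p with _ | _ | p
    · simp
    · simp only [zero_add, Nat.sub_self, Nat.cast_one, Nat.cast_zero, pow_zero, pow_one]
      ring
    · simp only [Nat.add_sub_cancel, pow_succ]
      push_cast
      ring
  -- second derivative test
  have hH : ∀ t : ℝ, HasDerivAt (fun t : ℝ => g (v + t • w) * (1 + nsq (v + t • w) / R ^ 2) ^ p)
      ((∑ j, w j * pd j g (v + t • w)) * (1 + nsq (v + t • w) / R ^ 2) ^ p + g (v + t • w) *
        (p * (1 + nsq (v + t • w) / R ^ 2) ^ (p - 1) *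
        (2 * (∑ i, (v i + t * w i) * w i) / R ^ 2))) t := fun t => (hG t).fun_mul (hk t)
  have hH2 := (hG2.fun_mul (hk 0)).fun_add ((hG 0).fun_mul hk2)
  obtain ⟨e1, e2⟩ := second_test hH hH2 (by
    intro t
    simpa using hdom (v + t • w))
  simp only [zero_smul, add_zero, zero_mul] at e1 e2
  set G1 : ℝ := ∑ j, w j * pd j g v with hG1
  set G2 : ℝ := ∑ i, ∑ j, w i * w j * pd i (pd j g) v with hG2'
  change G1 * K + g v * K1 = 0 at e1
  change G2 * K + G1 * K1 + (G1 * K1 + g v * K2) ≤ 0 at e2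
  have e3 : G1 * Q = -(p * g v * Q1) := by
    have : (G1 * Q + p * g v * Q1) * K = 0 := by
      linear_combination Q * e1 - g v * r1
    rcases mul_eq_zero.1 this with h | h
    · linarith
    · exact absurd h hKpos.ne'
  have e4 : G2 * Q ^ 2 ≤ p * (p + 1) * g v * Q1 ^ 2 - p * g v * Q * Q2 := by
    have h1 : (G2 * K + G1 * K1 + (G1 * K1 + g v * K2)) * Q ^ 2 ≤ 0 :=
      mul_nonpos_of_nonpos_of_nonneg e2 (by positivity)
    have h2 : (G2 * K + G1 * K1 + (G1 * K1 + g v * K2)) * Q ^ 2 =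
        (G2 * Q ^ 2 - (p * (p + 1) * g v * Q1 ^ 2 - p * g v * Q * Q2)) * K := by
      linear_combination (2 * Q * G1) * r1 + g v * r2 + (2 * p * K * Q1) * e3
    rw [h2] at h1
    by_contra hc
    rw [not_le] at hc
    have : 0 < (G2 * Q ^ 2 - (p * (p + 1) * g v * Q1 ^ 2 - p * g v * Q * Q2)) * K :=
      mul_pos (by linarith) hKpos
    linarith
  have hgv := h0 v
  have hQ2pos : 0 ≤ Q2 := by rw [hQ2]; positivity
  have e5 : G2 * Q ^ 2 ≤ p * (p + 1) * g v * Q1 ^ 2 := by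
    have : 0 ≤ p * g v * Q * Q2 := by positivity
    linarith
  have hden : 0 < R ^ 2 + nsq v := by positivity
  have eQ : Q * R ^ 2 = R ^ 2 + nsq v := by
    rw [hQ]; field_simp
  have eQ1 : Q1 * R ^ 2 = 2 * s := by
    rw [hQ1]; field_simp
  have hcs : s ^ 2 ≤ nsq v * nsq w := cauchy v w
  have e6 : G2 * (R ^ 2 + nsq v) ^ 2 ≤ 4 * p * (p + 1) * g v * s ^ 2 := by
    have h1 := mul_le_mul_of_nonneg_right e5 (by positivity : (0 : ℝ) ≤ (R ^ 2) ^ 2)
    have h2 : G2 * Q ^ 2 * (R ^ 2) ^ 2 = G2 * (R ^ 2 + nsq v) ^ 2 := by rw [← eQ]; ring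
    have h3 : p * (p + 1) * g v * Q1 ^ 2 * (R ^ 2) ^ 2 = 4 * p * (p + 1) * g v * s ^ 2 := by
      have : Q1 ^ 2 * (R ^ 2) ^ 2 = 4 * s ^ 2 := by
        calc Q1 ^ 2 * (R ^ 2) ^ 2 = (Q1 * R ^ 2) ^ 2 := by ring
          _ = 4 * s ^ 2 := by rw [eQ1]; ring
      calc p * (p + 1) * g v * Q1 ^ 2 * (R ^ 2) ^ 2
          = p * (p + 1) * g v * (Q1 ^ 2 * (R ^ 2) ^ 2) := by ring
        _ = 4 * p * (p + 1) * g v * s ^ 2 := by rw [this]; ring
    rw [h2, h3] at h1
    exact h1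
  have e7 : G2 * (R ^ 2 + nsq v) ^ 2 ≤
      4 * p * (p + 1) * g v * (nsq w * (R ^ 2 + nsq v)) := by
    refine e6.trans (mul_le_mul_of_nonneg_left ?_ (by positivity))
    nlinarith
  have e8 : G2 * (R ^ 2 + nsq v) ≤ 4 * p * (p + 1) * g v * nsq w := by
    by_contra hc
    rw [not_le] at hc
    have := mul_lt_mul_of_pos_right hc hden
    nlinarith
  rw [div_mul_eq_mul_div, le_div_iff₀ hden]
  exact e8

end Pool.Agent.H82.LK
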