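import Pool.Agent.H82.LK.Split
import Pool.Agent.H82.LK.Refl
import Pool.Agent.H82.LK.Lim
import Pool.Agent.H82.LK.Hess
import Pool.Agent.H82.LK.Alg

/-!
# Module LOp: the Landau operator at a touching point at scale `R ≥ 1`

`landauQ_eq`. First part: `∑_ij (a_ij * g)(v) ∂_ij g(v) = ∫ g(v-z) ∑_ij a_ij(z) ∂_ij g(v) dz`
`≤ d c ∫ g(v-z) |z|^(γ+2) dz`, `c = 4p(p+1) g(v)/(R²+|v|²)` (`landauA_quad` with `M_ij = ∂_ij g(v)` and `hess_touch`), and
`|v-w|^(γ+2) = nsq(v-w) (nsq(v-w))^(γ/2) ≤ (2 (R²+|v|²)(1+|w|²/R²))^((γ+2)/2) ≤ 2 (R²+|v|²) (1+|w|²/R²)^((γ+2)/2)` since `R ≥ 1`,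
`0 < (γ+2)/2 ≤ 1` (`|v-w|² ≤ 2(|v|²+|w|²) ≤ 2 (R²+|v|²)(1+|w|²/R²)`).
Second part: `-g(v) ∑_ij (a_ij * ∂_ij g)(v) ≤ d² g(v) ∫ g(v-z) |z|^γ dz` (`lim_ibp` for `φ(z) = g(v-z)`, `nice_refl`, `pd_pd_refl`;
integrability `land_int`), change of variables `z ↦ v - z` (`integral_sub_left_eq_self`). `K = 8 d p(p+1) + d²`.
-/

set_option autoImplicit false

open MeasureTheory Set Filter Topology Pool.Agent.H25.Kin

namespace Pool.Agent.H82.LK

variable {d : ℕ}

private lemma lop_int {g : Vec d → ℝ} (hg : Nice g) {h : Vec d → ℝ} (hm : Measurable h)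
    (h0 : ∀ z, 0 ≤ h z) (h1 : ∀ z, h z ≤ 1 + nsq z) : Integrable fun z : Vec d => g z * h z := by
  have e1 : RD (fun z : Vec d => g z * (1 + nsq z)) :=
    hg.rd.mul_PG ((PG.const (1 : ℝ)).add PG.nsq)
  have e2 : RD (fun z : Vec d => g z * h z) := by
    refine e1.mono 1 fun z => ?_
    have hn := sq_nonneg' z
    rw [norm_mul, norm_mul, one_mul, Real.norm_eq_abs (h z),
      Real.norm_eq_abs (1 + nsq z), abs_of_nonneg (h0 z),
      abs_of_nonneg (by linarith : (0 : ℝ) ≤ 1 + nsq z)]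
    exact mul_le_mul_of_nonneg_left (h1 z) (norm_nonneg _)
  exact e2.integrable (hg.cont.measurable.mul hm).aestronglyMeasurable

private lemma lop_pow {a x : ℝ} (hx : 1 ≤ x) (ha : a ≤ 1) : x ^ a ≤ x := by
  calc x ^ a ≤ x ^ (1 : ℝ) := Real.rpow_le_rpow_of_exponent_le hx ha
    _ = x := Real.rpow_one _

private lemma nsq_split (v z : Vec d) : nsq z ≤ 2 * (nsq v + nsq (v - z)) := by
  unfold nsq
  rw [← Finset.sum_add_distrib, Finset.mul_sum]
  refine Finset.sum_le_sum fun i _ => ?_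
  simp only [Pi.sub_apply]
  nlinarith [sq_nonneg (2 * v i - z i)]

private lemma pointwise {γ R : ℝ} (h1 : -2 < γ) (h2 : γ ≤ 0) (hR : 1 ≤ R) (v z : Vec d) :
    nsq z * nsq z ^ (γ / 2) ≤
      2 * (R ^ 2 + nsq v) * (1 + nsq (v - z) / R ^ 2) ^ ((γ + 2) / 2) := by
  have hR0 : 0 < R := by linarith
  have hR2 : (1 : ℝ) ≤ R ^ 2 := one_le_pow₀ hR
  have hv := sq_nonneg' v
  have hw := sq_nonneg' (v - z)
  have hB : 1 ≤ 1 + nsq (v - z) / R ^ 2 := by
    have : 0 ≤ nsq (v - z) / R ^ 2 := div_nonneg hw (by positivity)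
    linarith
  have hA : 1 ≤ 2 * (R ^ 2 + nsq v) := by linarith
  rcases (sq_nonneg' z).eq_or_lt with h | h
  · rw [← h, zero_mul]
    positivity
  · have e : nsq z * nsq z ^ (γ / 2) = nsq z ^ ((γ + 2) / 2) := by
      rw [show (γ + 2) / 2 = 1 + γ / 2 by ring, Real.rpow_add h, Real.rpow_one]
    have hle : nsq z ≤ 2 * (R ^ 2 + nsq v) * (1 + nsq (v - z) / R ^ 2) := by
      have h3 := nsq_split v z
      have h4 : nsq (v - z) = R ^ 2 * (nsq (v - z) / R ^ 2) := by field_simp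
      set y := nsq (v - z) / R ^ 2 with hy
      have hy0 : 0 ≤ y := div_nonneg hw (by positivity)
      have h5 : 0 ≤ nsq v * y := mul_nonneg hv hy0
      rw [h4] at h3
      nlinarith
    rw [e]
    calc nsq z ^ ((γ + 2) / 2) ≤
          (2 * (R ^ 2 + nsq v) * (1 + nsq (v - z) / R ^ 2)) ^ ((γ + 2) / 2) :=
          Real.rpow_le_rpow h.le hle (by linarith)
      _ = (2 * (R ^ 2 + nsq v)) ^ ((γ + 2) / 2) * (1 + nsq (v - z) / R ^ 2) ^ ((γ + 2) / 2) :=
          Real.mul_rpow (by linarith) (by linarith)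
      _ ≤ 2 * (R ^ 2 + nsq v) * (1 + nsq (v - z) / R ^ 2) ^ ((γ + 2) / 2) :=
          mul_le_mul_of_nonneg_right (lop_pow hA (by linarith))
            (Real.rpow_nonneg (by linarith) _)

private lemma conv_sum {k : Fin d → Fin d → Vec d → ℝ} {f : Vec d → ℝ} (v : Vec d)
    (M : Fin d → Fin d → ℝ) (hk : ∀ i j, Integrable fun z => k i j z • f (v - z)) :
    ∑ i, ∑ j, conv (k i j) f v * M i j = ∫ z, f (v - z) * ∑ i, ∑ j, k i j z * M i j := by
  have e : ∀ z, f (v - z) * ∑ i, ∑ j, k i j z * M i j =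
      ∑ i, ∑ j, (k i j z • f (v - z)) * M i j := by
    intro z
    rw [Finset.mul_sum]
    refine Finset.sum_congr rfl fun i _ => ?_
    rw [Finset.mul_sum]
    refine Finset.sum_congr rfl fun j _ => ?_
    rw [smul_eq_mul]
    ring
  simp_rw [e]
  rw [integral_finsetSum]
  · refine Finset.sum_congr rfl fun i _ => ?_
    rw [integral_finsetSum]
    · refine Finset.sum_congr rfl fun j _ => ?_
      rw [integral_mul_const]
      rfl
    · exact fun j _ => (hk i j).mul_const _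
  · exact fun i _ => integrable_finsetSum _ fun j _ => (hk i j).mul_const _

theorem landau_op (hd : 2 ≤ d) {γ : ℝ} (h1 : -2 < γ) (h2 : γ ≤ 0) (p : ℕ) :
    ∃ K : ℝ, 0 ≤ K ∧ ∀ R : ℝ, 1 ≤ R → ∀ g : Vec d → ℝ, Nice g → (∀ u, 0 ≤ g u) → ∀ v : Vec d,
      (∀ u, g u * (1 + nsq u / R ^ 2) ^ p ≤ g v * (1 + nsq v / R ^ 2) ^ p) →
      (Integrable fun z => g z * len (v - z) ^ γ) →
      landauQ γ g v ≤
        K * g v * ∫ z, g z * ((1 + nsq z / R ^ 2) ^ ((γ + 2) / 2) + len (v - z) ^ γ) := by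
  refine ⟨8 * d * p * (p + 1) + (d : ℝ) ^ 2, by positivity, fun R hR g hg hg0 v hdom hint => ?_⟩
  have hR0 : 0 < R := by linarith
  have hR2 : (1 : ℝ) ≤ R ^ 2 := one_le_pow₀ hR
  have hv0 := sq_nonneg' v
  have hgv := hg0 v
  have hd1 : 1 ≤ d := by omega
  have hden : 0 < R ^ 2 + nsq v := by positivity
  set θ : ℝ := (γ + 2) / 2 with hθ
  have hθ1 : θ ≤ 1 := by rw [hθ]; linarith
  set M : Fin d → Fin d → ℝ := fun i j => pd i (pd j g) v with hM
  set c : ℝ := 4 * p * (p + 1) * g v / (R ^ 2 + nsq v) with hc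
  have hc0 : 0 ≤ c := by rw [hc]; positivity
  have hMc : ∀ w : Vec d, ∑ i, ∑ j, w i * w j * M i j ≤ c * nsq w := fun w =>
    hess_touch hg.smooth hg0 hR0 hdom w
  -- integrability
  have hq : ∀ z : Vec d, 1 ≤ 1 + nsq z / R ^ 2 := fun z => by
    have h6 : 0 ≤ nsq z / R ^ 2 := div_nonneg (sq_nonneg' z) (by positivity)
    linarith
  have hq2 : ∀ z : Vec d, 1 + nsq z / R ^ 2 ≤ 1 + nsq z := fun z => by
    have h6 : nsq z / R ^ 2 ≤ nsq z := div_le_self (sq_nonneg' z) hR2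
    linarith
  have hqm : Measurable fun z : Vec d => (1 + nsq z / R ^ 2) ^ θ :=
    ((continuous_const.add (continuous_sq.div_const _)).measurable).pow_const θ
  have i1 : Integrable fun z : Vec d => g z * (1 + nsq z / R ^ 2) ^ θ :=
    lop_int hg hqm (fun z => Real.rpow_nonneg (by linarith [hq z]) _) fun z =>
      (lop_pow (hq z) hθ1).trans (hq2 z)
  have i1' : Integrable fun z : Vec d => g (v - z) * (1 + nsq (v - z) / R ^ 2) ^ θ :=
    i1.comp_sub_left v
  have hk : ∀ i j, Integrable fun z => landauA γ z i j • g (v - z) := fun i j =>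
    (kern_landauA h1 h2 i j).integrable hg.cont hg.rd v
  -- first part
  have s1 : ∑ i, ∑ j, conv (fun z => landauA γ z i j) g v * M i j ≤
      8 * d * p * (p + 1) * g v * ∫ z, g z * (1 + nsq z / R ^ 2) ^ θ := by
    rw [conv_sum (k := fun i j z => landauA γ z i j) v M hk]
    have e1 : ∫ z, g z * (1 + nsq z / R ^ 2) ^ θ =
        ∫ z, g (v - z) * (1 + nsq (v - z) / R ^ 2) ^ θ :=
      (integral_sub_left_eq_self (fun z : Vec d => g z * (1 + nsq z / R ^ 2) ^ θ) volume v).symm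
    rw [e1, ← integral_const_mul]
    have i2 : Integrable fun z : Vec d => g (v - z) * ∑ i, ∑ j, landauA γ z i j * M i j := by
      have e : (fun z : Vec d => g (v - z) * ∑ i, ∑ j, landauA γ z i j * M i j) =
          fun z => ∑ i, ∑ j, (landauA γ z i j • g (v - z)) * M i j := by
        funext z
        rw [Finset.mul_sum]
        refine Finset.sum_congr rfl fun i _ => ?_
        rw [Finset.mul_sum]
        refine Finset.sum_congr rfl fun j _ => ?_
        rw [smul_eq_mul]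
        ring
      rw [e]
      exact integrable_finsetSum _ fun i _ => integrable_finsetSum _ fun j _ =>
        (hk i j).mul_const _
    refine integral_mono i2 (i1'.const_mul _) fun z => ?_
    show g (v - z) * ∑ i, ∑ j, landauA γ z i j * M i j ≤
      8 * d * p * (p + 1) * g v * (g (v - z) * (1 + nsq (v - z) / R ^ 2) ^ θ)
    have h3 := landauA_quad hc0 hMc γ z
    have h4 := pointwise h1 h2 hR v z
    have h5 : (d : ℝ) * c * (nsq z * nsq z ^ (γ / 2)) ≤
        d * c * (2 * (R ^ 2 + nsq v) * (1 + nsq (v - z) / R ^ 2) ^ θ) :=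
      mul_le_mul_of_nonneg_left h4 (by positivity)
    have h6 : d * c * (2 * (R ^ 2 + nsq v) * (1 + nsq (v - z) / R ^ 2) ^ θ) =
        8 * d * p * (p + 1) * g v * (1 + nsq (v - z) / R ^ 2) ^ θ := by
      rw [hc]
      field_simp
      ring
    calc g (v - z) * ∑ i, ∑ j, landauA γ z i j * M i j
        ≤ g (v - z) * (8 * d * p * (p + 1) * g v * (1 + nsq (v - z) / R ^ 2) ^ θ) :=
          mul_le_mul_of_nonneg_left (by linarith) (hg0 _)
      _ = _ := by ring
  -- second part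
  have hint' : Integrable fun z : Vec d => g (v - z) * len z ^ γ := by
    have := hint.comp_sub_left v
    simpa only [sub_sub_cancel] using this
  have s2 : -((d : ℝ) * (d - 1)) * ∫ z, g z * len (v - z) ^ γ ≤
      ∑ i, ∑ j, conv (fun z => landauA γ z i j) (pd i (pd j g)) v := by
    have h3 := lim_ibp hd1 h1 h2 (nice_refl hg v) (fun z => hg0 _) hint'
    have e1 : ∫ z, g z * len (v - z) ^ γ = ∫ z, g (v - z) * len z ^ γ := by
      rw [← integral_sub_left_eq_self (fun z : Vec d => g z * len (v - z) ^ γ) volume v]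
      simp only [sub_sub_cancel]
    rw [e1]
    refine h3.trans (le_of_eq ?_)
    refine Finset.sum_congr rfl fun i _ => Finset.sum_congr rfl fun j _ => ?_
    unfold conv
    refine integral_congr_ae (Eventually.of_forall fun z => ?_)
    show landauA γ z i j * pd i (pd j fun z => g (v - z)) z =
      landauA γ z i j • pd i (pd j g) (v - z)
    rw [pd_pd_refl hg v z i j, smul_eq_mul]
  -- assembly
  have hI2 : 0 ≤ ∫ z, g z * len (v - z) ^ γ :=
    integral_nonneg fun z => mul_nonneg (hg0 z) (Real.rpow_nonneg (Real.sqrt_nonneg _) _)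
  have hI1 : 0 ≤ ∫ z, g z * (1 + nsq z / R ^ 2) ^ θ :=
    integral_nonneg fun z => mul_nonneg (hg0 z) (Real.rpow_nonneg (by linarith [hq z]) _)
  have hsum : ∫ z, g z * ((1 + nsq z / R ^ 2) ^ θ + len (v - z) ^ γ) =
      (∫ z, g z * (1 + nsq z / R ^ 2) ^ θ) + ∫ z, g z * len (v - z) ^ γ := by
    rw [← integral_add i1 hint]
    exact integral_congr_ae (Eventually.of_forall fun z => by
      show g z * ((1 + nsq z / R ^ 2) ^ θ + len (v - z) ^ γ) = _
      ring)
  have hQ : landauQ γ g v = (∑ i, ∑ j, conv (fun z => landauA γ z i j) g v * M i j) -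
      g v * ∑ i, ∑ j, conv (fun z => landauA γ z i j) (pd i (pd j g)) v := by
    rw [landauQ_eq h1 h2 hg v, Finset.mul_sum, ← Finset.sum_sub_distrib]
    refine Finset.sum_congr rfl fun i _ => ?_
    rw [Finset.mul_sum, ← Finset.sum_sub_distrib]
  rw [hQ, hsum]
  set I1 := ∫ z, g z * (1 + nsq z / R ^ 2) ^ θ with hI1'
  set I2 := ∫ z, g z * len (v - z) ^ γ with hI2'
  have h7 := mul_le_mul_of_nonneg_left s2 hgv
  have hdd : (1 : ℝ) ≤ d := by exact_mod_cast hd1
  have h8 : 0 ≤ (d : ℝ) * (g v * I2) := by positivity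
  have h9 : 0 ≤ (8 * d * p * (p + 1) : ℝ) * (g v * I2) := by positivity
  have h10 : 0 ≤ (d : ℝ) ^ 2 * (g v * I1) := by positivity
  have h11 : (8 * d * p * (p + 1) + (d : ℝ) ^ 2) * g v * (I1 + I2) =
      8 * d * p * (p + 1) * g v * I1 + (d : ℝ) ^ 2 * (g v * I1) +
        (8 * d * p * (p + 1) : ℝ) * (g v * I2) + (d : ℝ) ^ 2 * (g v * I2) := by ring
  have h12 : g v * (-((d : ℝ) * (d - 1)) * I2) = -((d : ℝ) ^ 2 * (g v * I2)) + d * (g v * I2) := by
    ring
  rw [h11]
  rw [h12] at h7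
  linarith

end Pool.Agent.H82.LK
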